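import Mathlib
import Pool.Agent.V11219.NormalFunctor

/-!
A finitary normal functor of degree 2 which is skeletal but neither open nor finitely
bicommutative.
-/

namespace Pool.Agent.Results.MP_92e33a_gt.SkeletalNotOpen

open CategoryTheory Topology Set TopologicalSpace Pool.Agent.V11219.CompFunctor

universe u

lemma not_open : ¬ OpenFunctor T.{u} := by
  intro h
  let Y : CompHaus.{u} := CompHaus.of (ULift.{u} unitInterval)
  let X : CompHaus.{u} := CompHaus.of (ULift.{u} unitInterval × Bool)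
  let f : X ⟶ Y := CompHausLike.ofHom _ ⟨Prod.fst, continuous_fst⟩
  have hopen := h f isOpenMap_fst Prod.fst_surjective
  let U : Set (TT (ULift.{u} unitInterval × Bool)) :=
    {p | p.1.1.2 = false} ∩ {p | p.1.2.1.2 = true}
  have hU : IsOpen U := by
    have h1 : Continuous fun p : TT (ULift.{u} unitInterval × Bool) => p.1.1.2 := by fun_prop
    have h2 : Continuous fun p : TT (ULift.{u} unitInterval × Bool) => p.1.2.1.2 := by fun_prop
    exact ((isOpen_discrete {false}).preimage h1).inter ((isOpen_discrete {true}).preimage h2)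
  have hV := hopen U hU
  let g : unitInterval → TT (ULift.{u} unitInterval) := fun t => ⟨(⟨0⟩, ⟨0⟩, ⟨t⟩), Or.inl rfl⟩
  have hg : Continuous g :=
    Continuous.subtype_mk (continuous_const.prodMk (continuous_const.prodMk continuous_uliftUp)) _
  have h0 : g ⁻¹' (tmap Prod.fst '' U) = {0} := by
    refine Subset.antisymm ?_ ?_
    · rintro t ⟨⟨⟨x, y, z⟩, hp⟩, ⟨hx, hy⟩, hpt⟩
      have hx' : x.2 = false := hx
      have hy' : y.2 = true := hy
      have hpt' : (x.1, y.1, z.1) = ((⟨0⟩, ⟨0⟩, ⟨t⟩) :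
          ULift.{u} unitInterval × ULift.{u} unitInterval × ULift.{u} unitInterval) :=
        congrArg Subtype.val hpt
      simp only [Prod.mk.injEq] at hpt'
      rcases hp with hp | hp
      · have hp' : x = y := hp
        rw [hp', hy'] at hx'
        exact absurd hx' (by decide)
      · have hp' : x = z := hp
        rw [← hp', hpt'.1] at hpt'
        exact (congrArg ULift.down hpt'.2.2).symm
    · rintro _ rfl
      exact ⟨⟨((⟨0⟩, false), (⟨0⟩, true), (⟨0⟩, false)), Or.inr rfl⟩, ⟨rfl, rfl⟩, rfl⟩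
  have hop : IsOpen ({0} : Set unitInterval) := by
    rw [← h0]
    exact IsOpen.preimage hg hV
  have hcl : IsClopen ({0} : Set unitInterval) := ⟨isClosed_singleton, hop⟩
  have huniv := hcl.eq_univ ⟨0, rfl⟩
  have h1 : (1 : unitInterval) ∈ ({0} : Set unitInterval) := by
    rw [huniv]
    exact mem_univ _
  exact one_ne_zero (α := unitInterval) h1

lemma not_bicommutative : ¬ FinitelyBicommutative T.{u} := by
  intro h
  let Q : CompHaus.{u} := CompHaus.of (ULift.{u} Bool × ULift.{u} Bool)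
  let B : CompHaus.{u} := CompHaus.of (ULift.{u} Bool)
  let P : CompHaus.{u} := CompHaus.of PUnit.{u + 1}
  let p1 : Q ⟶ B := CompHausLike.ofHom _ ⟨Prod.fst, continuous_fst⟩
  let p2 : Q ⟶ B := CompHausLike.ofHom _ ⟨Prod.snd, continuous_snd⟩
  let t : B ⟶ P := CompHausLike.ofHom _ ⟨fun _ => PUnit.unit, continuous_const⟩
  have hsq : Bicommutative p2 t p1 t := by
    refine ⟨fun _ => rfl, fun x => ?_⟩
    refine Set.ext fun y => ⟨fun _ => rfl, fun _ => ⟨(x, y), rfl, rfl⟩⟩
  have hF := h p2 t p1 t (inferInstanceAs (Finite (ULift.{u} Bool × ULift.{u} Bool)))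
    (inferInstanceAs (Finite (ULift.{u} Bool))) (inferInstanceAs (Finite (ULift.{u} Bool)))
    (inferInstanceAs (Finite PUnit)) Prod.snd_surjective (fun _ => ⟨⟨true⟩, rfl⟩)
    Prod.fst_surjective (fun _ => ⟨⟨true⟩, rfl⟩) hsq
  let a : TT (ULift.{u} Bool) := ⟨(⟨false⟩, ⟨true⟩, ⟨false⟩), Or.inr rfl⟩
  let b : TT (ULift.{u} Bool) := ⟨(⟨false⟩, ⟨false⟩, ⟨true⟩), Or.inl rfl⟩
  have hb : (show T.obj B from b) ∈ T.map t ⁻¹' {T.map t (show T.obj B from a)} := rfl
  rw [← hF.2] at hb
  obtain ⟨⟨⟨u, v, w⟩, hp⟩, hc, hc'⟩ := hb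
  have h1 : (u.1, v.1, w.1) = ((⟨false⟩, ⟨true⟩, ⟨false⟩) :
      ULift.{u} Bool × ULift.{u} Bool × ULift.{u} Bool) := congrArg Subtype.val hc
  have h2 : (u.2, v.2, w.2) = ((⟨false⟩, ⟨false⟩, ⟨true⟩) :
      ULift.{u} Bool × ULift.{u} Bool × ULift.{u} Bool) := congrArg Subtype.val hc'
  simp only [Prod.mk.injEq] at h1 h2
  rcases hp with hp | hp
  · have hp' : u = v := hp
    have h3 := h1.1
    rw [hp', h1.2.1] at h3
    exact absurd (congrArg ULift.down h3) (by decide)
  · have hp' : u = w := hp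
    have h3 := h2.1
    rw [hp', h2.2.2] at h3
    exact absurd (congrArg ULift.down h3) (by decide)

/-- **There is a finitary normal functor of degree 2 which is skeletal, but neither open nor
finitely bicommutative.** -/
theorem result : ∃ F : CompHaus.{u} ⥤ CompHaus.{u}, Normal F ∧ Finitary F ∧
    IsLeast {n | DegreeLE F n} 2 ∧ SkeletalFunctor F ∧ ¬ OpenFunctor F ∧
      ¬ FinitelyBicommutative F :=
  ⟨T, T_normal, T_finitary, T_degree, T_skeletal, not_open, not_bicommutative⟩

end Pool.Agent.Results.MP_92e33a_gt.SkeletalNotOpen
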